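import Mathlib

namespace Pool.Agent.Results.MP_451208_an.MixingNotSurjunctive

open Set Function Topology

/-- The shift `σ(x)_n = x_{n+1}` on bi-infinite sequences. -/
def shift {A : Type} (x : ℤ → A) : ℤ → A := fun n => x (n + 1)

/-- A subshift over `ℤ`: a closed set `X` of bi-infinite sequences with `σ(X) = X`. -/
def IsSubshift {A : Type} [TopologicalSpace A] (X : Set (ℤ → A)) : Prop :=
  IsClosed X ∧ shift '' X = X

/-- Topological mixing of `X`: for all nonempty (relatively) open `U ∩ X`, `V ∩ X` there is `N` such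
that `σ^n(U ∩ X)` meets `V ∩ X` for all `n ≥ N`. -/
def IsMixing {A : Type} [TopologicalSpace A] (X : Set (ℤ → A)) : Prop :=
  ∀ U V : Set (ℤ → A), IsOpen U → IsOpen V → (U ∩ X).Nonempty → (V ∩ X).Nonempty →
    ∃ N : ℕ, ∀ n : ℕ, N ≤ n → ((shift^[n] '' (U ∩ X)) ∩ (V ∩ X)).Nonempty

/-- A cellular automaton on `X`: a continuous self-map of `X` commuting with the shift. -/
def IsCellularAutomaton {A : Type} [TopologicalSpace A] (X : Set (ℤ → A)) (τ : X → X) : Prop :=
  Continuous τ ∧ ∀ x y : X, (y : ℤ → A) = shift (x : ℤ → A) →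
    (τ y : ℤ → A) = shift (τ x : ℤ → A)

/-- The alphabet: three binary tracks. -/
abbrev Alph : Type := Bool × Bool × Bool

/-- The subshift: no `a ≤ b ≤ c` with `b - a = c - b` such that there is a right-moving particle at
`a`, a static particle at `b` and a left-moving particle at `c`. -/
def XX : Set (ℤ → Alph) :=
  {x | ∀ (b : ℤ) (s : ℕ), ¬ ((x (b - s)).1 = true ∧ (x b).2.1 = true ∧ (x (b + s)).2.2 = true)}

/-- The automaton: first track moves right, third track moves left. -/
def T (x : ℤ → Alph) : ℤ → Alph := fun n => ((x (n - 1)).1, (x n).2.1, (x (n + 1)).2.2)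

lemma shift_iterate {A : Type} (x : ℤ → A) (n : ℕ) (k : ℤ) : (shift^[n] x) k = x (k + n) := by
  induction n generalizing k with
  | zero => simp
  | succ n ih =>
    rw [Function.iterate_succ_apply']
    show (shift^[n] x) (k + 1) = _
    rw [ih]
    congr 1
    push_cast
    ring

lemma isClosed_XX : IsClosed XX := by
  have : XX = ⋂ (b : ℤ) (s : ℕ), {x : ℤ → Alph | ¬ ((x (b - s)).1 = true ∧ (x b).2.1 = true ∧
      (x (b + s)).2.2 = true)} := by
    ext x
    simp only [XX, Set.mem_ofPred_eq, mem_iInter]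
  rw [this]
  refine isClosed_iInter fun b => isClosed_iInter fun s => ?_
  have h : Continuous (fun x : ℤ → Alph => (((x (b - s)).1, (x b).2.1, (x (b + s)).2.2) : Alph)) := by
    fun_prop
  have h2 : {x : ℤ → Alph | ¬ ((x (b - s)).1 = true ∧ (x b).2.1 = true ∧
      (x (b + s)).2.2 = true)} =
      (fun x : ℤ → Alph => (((x (b - s)).1, (x b).2.1, (x (b + s)).2.2) : Alph)) ⁻¹'
        {q | ¬ (q.1 = true ∧ q.2.1 = true ∧ q.2.2 = true)} := rfl
  rw [h2]
  exact (isClosed_discrete _).preimage h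

lemma shift_mem {x : ℤ → Alph} (hx : x ∈ XX) : shift x ∈ XX := by
  intro b s h
  refine hx (b + 1) s ?_
  have e1 : b + 1 - (s : ℤ) = b - s + 1 := by ring
  have e2 : b + 1 + (s : ℤ) = b + s + 1 := by ring
  rw [e1, e2]
  exact h

lemma unshift_mem {x : ℤ → Alph} (hx : x ∈ XX) : (fun n => x (n - 1)) ∈ XX := by
  intro b s h
  refine hx (b - 1) s ?_
  have e1 : b - 1 - (s : ℤ) = b - s - 1 := by ring
  have e2 : b - 1 + (s : ℤ) = b + s - 1 := by ring
  rw [e1, e2]
  exact h

lemma isSubshift_XX : IsSubshift XX := by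
  refine ⟨isClosed_XX, ?_⟩
  apply Subset.antisymm
  · rintro _ ⟨x, hx, rfl⟩
    exact shift_mem hx
  · intro x hx
    refine ⟨fun n => x (n - 1), unshift_mem hx, ?_⟩
    funext n
    simp [shift]

lemma T_mem {x : ℤ → Alph} (hx : x ∈ XX) : T x ∈ XX := by
  intro b s h
  refine hx b (s + 1) ?_
  simp only [T] at h
  obtain ⟨h1, h2, h3⟩ := h
  have e1 : b - ((s + 1 : ℕ) : ℤ) = b - s - 1 := by push_cast; ring
  have e2 : b + ((s + 1 : ℕ) : ℤ) = b + s + 1 := by push_cast; ring
  rw [e1, e2]
  exact ⟨h1, h2, h3⟩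

lemma T_injective : Injective T := by
  intro x y h
  funext n
  have h1 := congrFun h (n + 1)
  have h2 := congrFun h n
  have h3 := congrFun h (n - 1)
  simp only [T, Prod.mk.injEq] at h1 h2 h3
  rw [show n + 1 - 1 = n by ring] at h1
  rw [show n - 1 + 1 = n by ring] at h3
  exact Prod.ext h1.1 (Prod.ext h2.2.1 h3.2.2)

/-- Put the pattern `x` on `[-m, m]` and the pattern `y` on `[n-m, n+m]`, and vacuum elsewhere. -/
def glue (m : ℕ) (n : ℤ) (x y : ℤ → Alph) : ℤ → Alph := fun k =>
  if |k| ≤ m then x k else if |k - n| ≤ m then y (k - n) else (false, false, false)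

lemma glue_mem {m : ℕ} {n : ℤ} (hn : 4 * (m : ℤ) < n) {x y : ℤ → Alph} (hx : x ∈ XX)
    (hy : y ∈ XX) : glue m n x y ∈ XX := by
  rintro b s ⟨h1, h2, h3⟩
  have key : ∀ k : ℤ, (glue m n x y k = x k ∧ -m ≤ k ∧ k ≤ m) ∨
      (glue m n x y k = y (k - n) ∧ n - m ≤ k ∧ k ≤ n + m) ∨
      glue m n x y k = (false, false, false) := by
    intro k
    unfold glue
    by_cases hk : |k| ≤ m
    · left
      rw [if_pos hk]
      rw [abs_le] at hk
      exact ⟨rfl, hk.1, hk.2⟩
    · by_cases hk2 : |k - n| ≤ m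
      · right; left
        rw [if_neg hk, if_pos hk2]
        rw [abs_le] at hk2
        exact ⟨rfl, by linarith, by linarith⟩
      · right; right
        rw [if_neg hk, if_neg hk2]
  have hs : (0 : ℤ) ≤ s := Int.natCast_nonneg s
  rcases key (b - s) with ⟨k1, k1a, k1b⟩ | ⟨k1, k1a, k1b⟩ | k1
  · rcases key b with ⟨k2, k2a, k2b⟩ | ⟨k2, k2a, k2b⟩ | k2
    · rcases key (b + s) with ⟨k3, k3a, k3b⟩ | ⟨k3, k3a, k3b⟩ | k3
      · rw [k1] at h1; rw [k2] at h2; rw [k3] at h3
        exact hx b s ⟨h1, h2, h3⟩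
      · omega
      · rw [k3] at h3; simp at h3
    · rcases key (b + s) with ⟨k3, k3a, k3b⟩ | ⟨k3, k3a, k3b⟩ | k3
      · omega
      · omega
      · rw [k3] at h3; simp at h3
    · rw [k2] at h2; simp at h2
  · rcases key b with ⟨k2, k2a, k2b⟩ | ⟨k2, k2a, k2b⟩ | k2
    · omega
    · rcases key (b + s) with ⟨k3, k3a, k3b⟩ | ⟨k3, k3a, k3b⟩ | k3
      · omega
      · rw [k1] at h1; rw [k2] at h2; rw [k3] at h3
        refine hy (b - n) s ⟨?_, h2, ?_⟩
        · rw [show b - n - (s : ℤ) = b - s - n by ring]; exact h1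
        · rw [show b - n + (s : ℤ) = b + s - n by ring]; exact h3
      · rw [k3] at h3; simp at h3
    · rw [k2] at h2; simp at h2
  · rw [k1] at h1; simp at h1

/-- Every open set containing `x` contains all sequences agreeing with `x` on some `[-m, m]`. -/
lemma exists_window {U : Set (ℤ → Alph)} (hU : IsOpen U) {x : ℤ → Alph} (hx : x ∈ U) :
    ∃ m : ℕ, ∀ z : ℤ → Alph, (∀ k : ℤ, |k| ≤ m → z k = x k) → z ∈ U := by
  rw [isOpen_pi_iff] at hU
  obtain ⟨I, u, hu, hI⟩ := hU x hx
  refine ⟨I.sup Int.natAbs, fun z hz => hI ?_⟩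
  intro k hk
  have hk' : Int.natAbs k ≤ I.sup Int.natAbs := Finset.le_sup (f := Int.natAbs) hk
  rw [hz k (by rw [Int.abs_eq_natAbs]; exact_mod_cast hk')]
  exact (hu k hk).2

lemma isMixing_XX : IsMixing XX := by
  rintro U V hU hV ⟨x, hxU, hxX⟩ ⟨y, hyV, hyX⟩
  obtain ⟨m1, hm1⟩ := exists_window hU hxU
  obtain ⟨m2, hm2⟩ := exists_window hV hyV
  set m := max m1 m2 with hm
  refine ⟨4 * m + 1, fun n hn => ?_⟩
  have hn' : 4 * (m : ℤ) < (n : ℤ) := by exact_mod_cast hn
  have hz : glue m n x y ∈ XX := glue_mem hn' hxX hyX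
  refine ⟨shift^[n] (glue m n x y), ⟨glue m n x y, ⟨hm1 _ ?_, hz⟩, rfl⟩, hm2 _ ?_, ?_⟩
  · intro k hk
    have : |k| ≤ (m : ℤ) := hk.trans (by exact_mod_cast le_max_left _ _)
    simp [glue, this]
  · intro k hk
    have hk2 : |k| ≤ (m : ℤ) := hk.trans (by exact_mod_cast le_max_right _ _)
    rw [shift_iterate]
    unfold glue
    rw [if_neg, if_pos]
    · congr 1; ring
    · rw [show k + (n : ℤ) - n = k by ring]; exact hk2
    · intro h
      rw [abs_le] at h hk2
      omega
  · have : ∀ j : ℕ, shift^[j] (glue m n x y) ∈ XX := by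
      intro j
      induction j with
      | zero => exact hz
      | succ j ih => rw [Function.iterate_succ_apply']; exact shift_mem ih
    exact this n

/-- There are a finite alphabet `A`, a topologically mixing subshift `X ⊆ A^ℤ` and an injective
cellular automaton `τ : X → X` that is not surjective. -/
theorem result :
    ∃ (A : Type) (_ : Finite A) (_ : TopologicalSpace A) (_ : DiscreteTopology A)
      (X : Set (ℤ → A)), IsSubshift X ∧ IsMixing X ∧
      ∃ τ : X → X, IsCellularAutomaton X τ ∧ Injective τ ∧ ¬ Surjective τ := by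
  refine ⟨Alph, inferInstance, inferInstance, inferInstance, XX, isSubshift_XX, isMixing_XX,
    fun x => ⟨T x.1, T_mem x.2⟩, ⟨?_, ?_⟩, ?_, ?_⟩
  · apply Continuous.subtype_mk
    have : Continuous T := by
      unfold T
      fun_prop
    exact this.comp continuous_subtype_val
  · intro x y hxy
    show T y.1 = shift (T x.1)
    rw [hxy]
    funext n
    simp only [T, shift]
    rw [show n - 1 + 1 = n + 1 - 1 by ring]
  · intro x y h
    exact Subtype.ext (T_injective (congrArg Subtype.val h))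
  · intro hsurj
    let w : ℤ → Alph := fun k => (decide (k = 1), decide (k = 0), decide (k = -1))
    have hw : w ∈ XX := by
      rintro b s ⟨h1, h2, h3⟩
      simp only [w, decide_eq_true_eq] at h1 h2 h3
      omega
    obtain ⟨x, hx⟩ := hsurj ⟨w, hw⟩
    have hx' : T x.1 = w := congrArg Subtype.val hx
    have c1 := congrArg Prod.fst (congrFun hx' 1)
    have c2 := congrArg (fun q => q.2.1) (congrFun hx' 0)
    have c3 := congrArg (fun q => q.2.2) (congrFun hx' (-1))
    simp only [T, w] at c1 c2 c3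
    refine x.2 0 0 ⟨?_, ?_, ?_⟩
    · simpa using c1
    · simpa using c2
    · simpa using c3

end Pool.Agent.Results.MP_451208_an.MixingNotSurjunctive
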